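import Pool.Agent.helper11.RPQ.SpecI

set_option autoImplicit false

open scoped MatrixGroups ContDiff Topology UpperHalfPlane ComplexConjugate ENNReal
open UpperHalfPlane MeasureTheory Filter Set

namespace Pool.Agent.RPQ

open Pool.Agent.RS
open Pool.Agent.MS (BA BB st pf gk Dk amk)

theorem BCI_mono {Γ : Subgroup SL(2, ℝ)} {F : Set ℍ} {f : ℍ → ℝ} {ε ε' : ℝ} {φ : ℍ → ℂ} (h : ε ≤ ε')
    (hE : Eqd Γ F f ε φ) : Eqd Γ F f ε' φ := by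
  intro h' h1 h2
  refine (hE h' h1 h2).trans (mul_le_mul_of_nonneg_right h ?_)
  exact integral_nonneg fun z => mul_nonneg (sq_nonneg _) (Real.exp_pos _).le

/-- the conclusion at one frequency -/
def BCI_ok (Γ : Subgroup SL(2, ℝ)) (V : (ℕ × ℕ → ℝ) → ℍ → ℝ) (ε R ϵ : ℝ) (ζ : ℕ × ℕ → ℝ) : Prop :=
  ∀ (F : Set ℍ) (t μ : ℝ) (φ : ℍ → ℂ), QU.NiceDom Γ F → |t - ϵ| ≤ R ^ (-(11 / 10) : ℝ) → 0 < μ →
    |Real.sqrt μ - R| ≤ R ^ (-(1 / 100) : ℝ) → CEig Γ (fun z => t * V ζ z) μ φ →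
      Eqd Γ F (fun z => t * V ζ z) ε φ

/-- summability -/
theorem BCI_sum (S : ℕ → Set (ℕ × ℕ → ℝ)) (h : ∀ i : ℕ, 1 ≤ i → PN (S i) ≤ ((i : ENNReal) + 1) * ENNReal.ofReal (Real.sqrt i ^ (-(4 + 2) : ℝ)))
    (h0 : S 0 = ∅) : ∑' i, PN (S i) ≠ ⊤ := by
  have hs : Summable fun i : ℕ => 2 * (1 / (i : ℝ) ^ 2) := (Real.summable_one_div_nat_pow.2 (by norm_num)).mul_left 2
  have h1 : ∀ i : ℕ, PN (S i) ≤ ENNReal.ofReal (2 * (1 / (i : ℝ) ^ 2)) := by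
    intro i
    rcases Nat.eq_zero_or_pos i with hi | hi
    · rw [hi, h0, measure_empty]
      exact zero_le
    · refine (h i hi).trans ?_
      have hi1 : (1 : ℝ) ≤ i := by exact_mod_cast hi
      have hi0 : (0 : ℝ) < i := by linarith
      have e1 : ((i : ENNReal) + 1) = ENNReal.ofReal ((i : ℝ) + 1) := by
        rw [ENNReal.ofReal_add hi0.le zero_le_one, ENNReal.ofReal_natCast, ENNReal.ofReal_one]
      rw [e1, ← ENNReal.ofReal_mul (by positivity)]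
      refine ENNReal.ofReal_le_ofReal ?_
      have e2 : Real.sqrt i ^ (-(4 + 2) : ℝ) = ((i : ℝ) ^ 3)⁻¹ := by
        rw [Real.rpow_neg (Real.sqrt_nonneg _), show (4 + 2 : ℝ) = ((6 : ℕ) : ℝ) by norm_num, Real.rpow_natCast]
        congr 1
        calc Real.sqrt i ^ 6 = (Real.sqrt i ^ 2) ^ 3 := by ring
          _ = (i : ℝ) ^ 3 := by rw [Real.sq_sqrt hi0.le]
      rw [e2, ← div_eq_mul_inv, mul_one_div, div_le_div_iff₀ (by positivity) (by positivity)]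
      nlinarith [pow_pos hi0 2, pow_pos hi0 3]
  have h2 : ∑' i : ℕ, ENNReal.ofReal (2 * (1 / (i : ℝ) ^ 2)) ≠ ⊤ := by
    rw [← ENNReal.ofReal_tsum_of_nonneg (fun i => by positivity) hs]
    exact ENNReal.ofReal_ne_top
  exact ne_top_of_le_ne_top h2 (ENNReal.tsum_le_tsum h1)

/-- the statement for one accuracy -/
theorem BCI_eps (hPRW : PRW_stmt) (hRSM : RSM_stmt) (hRFP : RFP_stmt) (hGI1 : GI1_stmt) (hGI2 : GI2_stmt)
    (Γ : Subgroup SL(2, ℝ)) (κ : ℝ → ℝ) (C0 : ℝ) (k0 : ℕ) (J : ℕ → ℕ) (p : (k : ℕ) → Fin (J k) → ℍ)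
    (χ : (k : ℕ) → Fin (J k) → ℍ → ℝ) (f0 : ℍ → ℝ) (L : ℝ) (hΓ : QU.SurfaceGroup Γ) (hF : Fam Γ κ C0 k0 J p χ)
    (hf0 : QU.Inv Γ f0) (hf1 : ∀ z w, |f0 z - f0 w| ≤ L * dist z w) (ε : ℝ) (hε : 0 < ε) :
    ∃ δ : ℝ, 0 < δ ∧ ∀ᵐ ζ ∂PN, ∃ r0 : ℝ, 3 ≤ r0 ∧ ∀ r t : ℝ, r0 ≤ r →
      Real.exp (Real.log (Real.log r) ^ 3) / r ≤ t → t ≤ r ^ (-1 + δ) →
      Good Γ (fun z => t * (f0 z + rf J χ ζ z)) ε r r := by
  obtain ⟨hP, hone, hmp⟩ := hRSM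
  haveI := hP
  obtain ⟨⟨C1, hC1, hmeas, hV⟩, hVf⟩ := hRFP Γ κ C0 k0 J p χ f0 L hΓ hF hf0 hf1
  obtain ⟨a, δ, R0, ha, hδ, hδ1, hR0, hPRW⟩ := hPRW Γ κ C0 C1 ε 4 hΓ hF.mo hF.c0 hC1 hε (by norm_num)
  obtain ⟨R1, hR1, hGI1⟩ := hGI1 a k0 ha
  refine ⟨δ / 2, half_pos hδ, ?_⟩
  -- the bad set for `i` and `m`
  have hbad : ∀ (i m : ℕ), R0 ≤ Real.sqrt i → R1 ≤ Real.sqrt i →
      Real.exp (Real.log (Real.log (Real.sqrt i)) ^ 3) / (2 * Real.sqrt i) ≤ m * Real.sqrt i ^ (-(11 / 10) : ℝ) →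
      m * Real.sqrt i ^ (-(11 / 10) : ℝ) ≤ Real.sqrt i ^ (-1 + δ) →
      PN {ζ | ¬ BCI_ok Γ (Vf f0 J χ) ε (Real.sqrt i) (m * Real.sqrt i ^ (-(11 / 10) : ℝ)) ζ} ≤
        ENNReal.ofReal (Real.sqrt i ^ (-(4 + 2) : ℝ)) := by
    intro i m h1 h2 h3 h4
    obtain ⟨k, hk0, hk1, hk2, hk3⟩ := hGI1 (Real.sqrt i) h2
    exact hPRW (Real.sqrt i) (1 / (k : ℝ)) (m * Real.sqrt i ^ (-(11 / 10) : ℝ)) (amp k) (J k) (p k) (χ k)
      (ℕ × ℕ → ℝ) PN (Vf f0 J χ) (fun ζ => Vf f0 J χ (upd k (J k) (ζ, fun _ => 0))) (upd k (J k)) h1 hk1 hk2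
      (hk3 _ h3) (by positivity) h4 (hF.net k hk0) hmeas (fun ζ => (hV ζ).1) (fun ζ => (hV _).1)
      (fun ζ => (hV ζ).2.1) (fun ζ => (hV ζ).2.2.1) (hmp k (J k)) (fun ζ ξ hξ z => (hV ζ).2.2.2 k ξ hξ z)
  set P : ℕ → ℕ → Prop := fun i m => R0 ≤ Real.sqrt i ∧ R1 ≤ Real.sqrt i ∧
      Real.exp (Real.log (Real.log (Real.sqrt i)) ^ 3) / (2 * Real.sqrt i) ≤ m * Real.sqrt i ^ (-(11 / 10) : ℝ) ∧
      m * Real.sqrt i ^ (-(11 / 10) : ℝ) ≤ Real.sqrt i ^ (-1 + δ) with hPdef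
  set S : ℕ → Set (ℕ × ℕ → ℝ) := fun i => ⋃ m ∈ Finset.range (i + 1),
    {ζ | P i m ∧ ¬ BCI_ok Γ (Vf f0 J χ) ε (Real.sqrt i) (m * Real.sqrt i ^ (-(11 / 10) : ℝ)) ζ} with hS
  have hS1 : ∀ i : ℕ, PN (S i) ≤ ((i : ENNReal) + 1) * ENNReal.ofReal (Real.sqrt i ^ (-(4 + 2) : ℝ)) := by
    intro i
    have h1 : ∀ m ∈ Finset.range (i + 1), PN {ζ | P i m ∧ ¬ BCI_ok Γ (Vf f0 J χ) ε (Real.sqrt i)
        (m * Real.sqrt i ^ (-(11 / 10) : ℝ)) ζ} ≤ ENNReal.ofReal (Real.sqrt i ^ (-(4 + 2) : ℝ)) := by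
      intro m _
      by_cases hPm : P i m
      · refine (measure_mono ?_).trans (hbad i m hPm.1 hPm.2.1 hPm.2.2.1 hPm.2.2.2)
        intro ζ hζ
        exact hζ.2
      · have : {ζ | P i m ∧ ¬ BCI_ok Γ (Vf f0 J χ) ε (Real.sqrt i)
            (m * Real.sqrt i ^ (-(11 / 10) : ℝ)) ζ} = ∅ := by
          ext ζ
          constructor
          · intro h; exact absurd h.1 hPm
          · intro h; exact absurd h (notMem_empty _)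
        rw [this, measure_empty]
        exact zero_le
    calc PN (S i) ≤ ∑ m ∈ Finset.range (i + 1), PN {ζ | P i m ∧ ¬ BCI_ok Γ (Vf f0 J χ) ε (Real.sqrt i)
          (m * Real.sqrt i ^ (-(11 / 10) : ℝ)) ζ} := measure_biUnion_finset_le _ _
      _ ≤ ∑ _m ∈ Finset.range (i + 1), ENNReal.ofReal (Real.sqrt i ^ (-(4 + 2) : ℝ)) := Finset.sum_le_sum h1
      _ = ((i : ENNReal) + 1) * ENNReal.ofReal (Real.sqrt i ^ (-(4 + 2) : ℝ)) := by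
          rw [Finset.sum_const, Finset.card_range, nsmul_eq_mul]
          push_cast
          rfl
  have hS0 : S 0 = ∅ := by
    rw [hS]
    ext ζ
    constructor
    · intro h
      simp only [mem_iUnion] at h
      obtain ⟨m, -, h1, -⟩ := h
      have h2 := h1.1
      rw [Nat.cast_zero, Real.sqrt_zero] at h2
      linarith
    · intro h; exact absurd h (notMem_empty _)
  have hae := ae_eventually_notMem (BCI_sum S (fun i _ => hS1 i) hS0)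
  filter_upwards [hae, hone] with ζ h1 h2
  obtain ⟨I1, hI1⟩ := eventually_atTop.1 h1
  obtain ⟨r0, hr0, hG⟩ := hGI2 δ (max (max R0 R1) (Real.sqrt I1)) hδ hδ1
  refine ⟨r0, hr0, fun r t hr ht1 ht2 => ?_⟩
  obtain ⟨i, m, hmi, hi, g1, g2, g3, g4⟩ := hG r t hr ht1 ht2
  have hi1 : I1 ≤ i := by
    have h3 : Real.sqrt I1 ≤ Real.sqrt i := (le_max_right _ _).trans hi
    have h4 : (I1 : ℝ) ≤ i := (Real.sqrt_le_sqrt_iff (Nat.cast_nonneg _)).1 h3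
    exact_mod_cast h4
  have hiR0 : R0 ≤ Real.sqrt i := (le_max_left _ _).trans ((le_max_left _ _).trans hi)
  have hiR1 : R1 ≤ Real.sqrt i := (le_max_right _ _).trans ((le_max_left _ _).trans hi)
  have hok : BCI_ok Γ (Vf f0 J χ) ε (Real.sqrt i) (m * Real.sqrt i ^ (-(11 / 10) : ℝ)) ζ := by
    by_contra hno
    refine hI1 i hi1 ?_
    rw [hS]
    simp only [mem_iUnion]
    exact ⟨m, Finset.mem_range.2 (by omega), ⟨hiR0, hiR1, g3, g4⟩, hno⟩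
  intro F μ φ hFd hμ1 hμ2 hE
  have hr3 : 0 < r := by linarith
  have hμ : μ = r ^ 2 := le_antisymm hμ2 hμ1
  have hfun : (fun z => t * (f0 z + rf J χ ζ z)) = fun z => t * Vf f0 J χ ζ z := by
    funext z
    rw [(hVf ζ h2).2 z]
  rw [hfun] at hE ⊢
  refine hok F t μ φ hFd g2 (by rw [hμ]; positivity) ?_ hE
  rw [hμ, Real.sqrt_sq hr3.le]
  exact g1

theorem BCI_proof (hPRW : PRW_stmt) (hRSM : RSM_stmt) (hRFP : RFP_stmt) (hGI1 : GI1_stmt) (hGI2 : GI2_stmt) : BCI_stmt := by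
  intro Γ κ C0 k0 J p χ f0 L hΓ hF hf0 hf1
  have h1 := fun n : ℕ => BCI_eps hPRW hRSM hRFP hGI1 hGI2 Γ κ C0 k0 J p χ f0 L hΓ hF hf0 hf1 (1 / ((n : ℝ) + 1)) (by positivity)
  choose δ hδ h2 using h1
  have h3 := ae_all_iff.2 h2
  filter_upwards [h3] with ζ h4
  intro ε hε
  obtain ⟨n, hn⟩ := exists_nat_one_div_lt hε
  obtain ⟨r0, hr0, h5⟩ := h4 n
  refine ⟨δ n, r0, hδ n, hr0, fun r t hr ht1 ht2 F μ φ hFd hμ1 hμ2 hE => ?_⟩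
  exact BCI_mono hn.le (h5 r t hr ht1 ht2 F μ φ hFd hμ1 hμ2 hE)

end Pool.Agent.RPQ
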